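import Pool.Agent.Helper23.MV.StE
import Pool.Agent.Helper22.GK.M_TFO

/-! Project MV, module ZF1: zeros very close to `1`, complex case. -/

set_option autoImplicit false

namespace Pool.Agent.Helper85.MV

open Pool.Agent.Helper23.MV

private theorem triv_L_ZF1 (e : PCh) (h : e.χ = 1) (s : ℂ) : e.L s = riemannZeta s := by
  obtain ⟨r, hr, χ, prim⟩ := e
  have hnz : NeZero r := ⟨hr⟩
  have h0 : χ = 1 := h
  have h1 : r = 1 := by
    have h2 : DirichletCharacter.conductor χ = r := prim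
    rw [h0, DirichletCharacter.conductor_one] at h2
    exact h2.symm
  subst h1
  unfold PCh.L
  simp only
  rw [DirichletCharacter.LFunction_modOne_eq]

private theorem re_inv_ZF1 (x y : ℝ) (hx : 0 < x) (hy : y ≠ 0) :
    (1 / ((x : ℂ) + y * Complex.I)).re ≤ x / y ^ 2 := by
  rw [one_div, Complex.inv_re]
  have h1 : ((x : ℂ) + y * Complex.I).re = x := by simp
  have h2 : Complex.normSq ((x : ℂ) + y * Complex.I) = x ^ 2 + y ^ 2 := by
    rw [Complex.normSq_apply]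
    simp
    ring
  rw [h1, h2]
  have h3 : 0 < y ^ 2 := by positivity
  exact div_le_div_of_nonneg_left hx.le h3 (by nlinarith [sq_nonneg x])

theorem hZf1 (hF : StFin) (hR : StLdr) (hP : StLdp) (hZ : StZlw) : StZf1 := by
  intro lam0 hlam
  obtain ⟨A₁, hA₁, hR⟩ := hR
  obtain ⟨A₂, hA₂, hP⟩ := hP
  obtain ⟨c₃, hc₃, hc₃', hZ⟩ := hZ
  obtain ⟨A, hA⟩ : ∃ A : ℝ, A = max A₁ A₂ := ⟨_, rfl⟩
  have hA₁' : A₁ ≤ A := by rw [hA]; exact le_max_left _ _
  have hA₂' : A₂ ≤ A := by rw [hA]; exact le_max_right _ _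
  have hA0 : 1 ≤ A := le_trans hA₁ hA₁'
  obtain ⟨κ, hκ⟩ : ∃ κ : ℝ, κ = 1 / (400 * A * lam0) := ⟨_, rfl⟩
  have hden : 1 ≤ A * lam0 := one_le_mul_of_one_le_of_one_le hA0 hlam
  have hκ0 : 0 < κ := by rw [hκ]; positivity
  have hκ1 : κ ≤ 1 := by
    rw [hκ, div_le_one (by positivity)]
    nlinarith
  have hAκ : A * κ = 1 / (400 * lam0) := by
    rw [hκ]
    field_simp
  obtain ⟨c₁, X₁, hc₁, hc₁', hX₁, hR⟩ := hR κ hκ0 hκ1
  obtain ⟨c₂, X₂, hc₂, hc₂', hX₂, hP⟩ := hP κ hκ0 hκ1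
  obtain ⟨m, hm⟩ : ∃ m : ℝ, m = min (min c₁ c₂) c₃ := ⟨_, rfl⟩
  have hm0 : 0 < m := by rw [hm]; exact lt_min (lt_min hc₁ hc₂) hc₃
  have hm1 : m ≤ c₁ := by rw [hm]; exact le_trans (min_le_left _ _) (min_le_left _ _)
  have hm2 : m ≤ c₂ := by rw [hm]; exact le_trans (min_le_left _ _) (min_le_right _ _)
  have hm3 : m ≤ c₃ := by rw [hm]; exact min_le_right _ _
  refine ⟨m, max (max X₁ X₂) (Real.exp (7 * lam0 / m + 3 * lam0)), hm0,
    le_trans hX₁ (le_trans (le_max_left _ _) (le_max_left _ _)), ?_⟩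
  intro X e ρ hX hr hρ hρre hρim
  have hXX₁ : X₁ ≤ X := le_trans (le_trans (le_max_left _ _) (le_max_left _ _)) hX
  have hXX₂ : X₂ ≤ X := le_trans (le_trans (le_max_right _ _) (le_max_left _ _)) hX
  have hXe : Real.exp (7 * lam0 / m + 3 * lam0) ≤ X := le_trans (le_max_right _ _) hX
  have hX2 : 2 ≤ X := le_trans hX₁ hXX₁
  have hX0 : 0 < X := by linarith
  obtain ⟨L, hL⟩ : ∃ L : ℝ, L = Real.log X := ⟨_, rfl⟩
  have hLT : 7 * lam0 / m + 3 * lam0 ≤ L := by
    rw [hL, Real.le_log_iff_exp_le hX0]; exact hXe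
  have h7 : 0 < 7 * lam0 / m := by positivity
  have hL0 : 0 < L := by linarith
  rw [← hL] at hρre ⊢
  have hLm : 7 * lam0 / L ≤ m := by
    rw [div_le_iff₀ hL0]
    have : 7 * lam0 / m ≤ L := by linarith
    rw [div_le_iff₀ hm0] at this
    linarith
  -- the zero
  have hlamL : lam0 / L ≤ 1 / 8 := by
    have h8 : lam0 / L ≤ 7 * lam0 / L := div_le_div_of_nonneg_right (by linarith) hL0.le
    linarith
  obtain ⟨hβ, hmz⟩ := hF.2.2 e ρ hρ (by linarith)
  -- large parameter `Y = X²`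
  have hY1 : X ≤ X ^ 2 := by nlinarith
  have hYL : Real.log (X ^ 2) = 2 * L := by rw [Real.log_pow, hL]; push_cast; ring
  have hrY : ∀ c : ℝ, m ≤ c → (e.r : ℝ) ≤ (X ^ 2) ^ c := by
    intro c hc
    calc (e.r : ℝ) ≤ X ^ m := hr
      _ ≤ (X ^ 2) ^ m := Real.rpow_le_rpow hX0.le hY1 hm0.le
      _ ≤ (X ^ 2) ^ c := Real.rpow_le_rpow_of_exponent_le (by nlinarith) hc
  obtain ⟨σ, hσ⟩ : ∃ σ : ℝ, σ = 1 + 6 * lam0 / L := ⟨_, rfl⟩
  have hb0 : 0 < 6 * lam0 / L := by positivity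
  have hσ1 : 1 < σ := by rw [hσ]; linarith
  have hσY : 1 + 1 / Real.log (X ^ 2) ≤ σ := by
    rw [hYL, hσ]
    have : 1 / (2 * L) ≤ 6 * lam0 / L := by
      rw [div_le_div_iff₀ (by positivity) hL0]
      nlinarith
    linarith
  have h67 : 6 * lam0 / L ≤ 7 * lam0 / L := div_le_div_of_nonneg_right (by linarith) hL0.le
  have hσc₁ : σ ≤ 1 + c₁ := by rw [hσ]; linarith
  have hσc₂ : σ ≤ 1 + c₂ := by rw [hσ]; linarith
  obtain ⟨γ, hγ⟩ : ∃ γ : ℝ, γ = ρ.im := ⟨_, rfl⟩
  obtain ⟨β, hβe⟩ : ∃ β : ℝ, β = ρ.re := ⟨_, rfl⟩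
  rw [← hγ] at hρim ⊢
  rw [← hβe] at hρre hβ
  have hρe : ρ = β + γ * Complex.I := by rw [hγ, hβe]; exact (Complex.re_add_im ρ).symm
  -- the trivial character
  have htriv : e.χ = 1 → 20 < |γ| := by
    intro he
    by_contra hcon
    have hz : riemannZeta ρ = 0 := by rw [← triv_L_ZF1 e he]; exact hρ
    by_cases h1 : ρ = 1
    · rw [h1] at hz
      exact riemannZeta_one_ne_zero hz
    · refine hZ ρ ?_ ?_ h1 hz
      · rw [← hβe]
        have h8 : lam0 / L ≤ 7 * lam0 / L := div_le_div_of_nonneg_right (by linarith) hL0.le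
        linarith
      · rw [← hγ]
        exact not_lt.1 hcon
  -- the three bounds
  have hη : ∀ A' : ℝ, A' ≤ A → A' * κ * Real.log (X ^ 2) ≤ L / (200 * lam0) := by
    intro A' hA'
    have h1 : A' * κ ≤ A * κ := mul_le_mul_of_nonneg_right hA' hκ0.le
    rw [hAκ] at h1
    rw [hYL]
    calc A' * κ * (2 * L) ≤ 1 / (400 * lam0) * (2 * L) :=
          mul_le_mul_of_nonneg_right h1 (by positivity)
      _ = L / (200 * lam0) := by field_simp; ring
  have hB1 : (-(deriv (DirichletCharacter.LFunction (1 : DirichletCharacter ℂ e.r)) (σ : ℂ) /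
      DirichletCharacter.LFunction (1 : DirichletCharacter ℂ e.r) (σ : ℂ))).re ≤
      L / (6 * lam0) + L / (200 * lam0) := by
    have h1 := hP (X ^ 2) e.r σ 0 (le_trans hXX₂ hY1) (hrY c₂ hm2) hσY hσc₂ (by
      rw [abs_zero]; positivity)
    simp only [Complex.ofReal_zero, zero_mul, add_zero] at h1
    have h2 : (1 / ((σ : ℂ) - 1)).re = L / (6 * lam0) := by
      have e1 : (1 / ((σ : ℂ) - 1)) = ((1 / (σ - 1) : ℝ) : ℂ) := by push_cast; rfl
      rw [e1, Complex.ofReal_re, hσ]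
      have e2 : 1 + 6 * lam0 / L - 1 = 6 * lam0 / L := by ring
      rw [e2, one_div_div]
    rw [h2] at h1
    linarith [hη A₂ hA₂']
  have hB2 : (-(deriv (DirichletCharacter.LFunction e.χ) (σ + γ * Complex.I) /
      DirichletCharacter.LFunction e.χ (σ + γ * Complex.I))).re ≤
      L / (200 * lam0) - L / (7 * lam0) := by
    have hdiff : ((σ + γ * Complex.I : ℂ) - ρ) = ((σ - β : ℝ) : ℂ) := by
      rw [hρe]; push_cast; ring
    have hσβ0 : 0 < σ - β := by linarith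
    have hσβ : σ - β ≤ 7 * lam0 / L := by
      rw [hσ]
      have : 7 * lam0 / L = 6 * lam0 / L + lam0 / L := by ring
      linarith
    have h1 := hR (X ^ 2) e.r e.χ σ γ {ρ} (le_trans hXX₁ hY1) (hrY c₁ hm1) hσY hσc₁
      (by linarith) (fun he => by linarith [htriv he]) (by
        intro ρ' hρ'
        rw [Finset.mem_singleton] at hρ'
        subst hρ'
        refine ⟨hρ, ?_⟩
        rw [← norm_neg, neg_sub, hdiff, Complex.norm_real, Real.norm_eq_abs, abs_of_pos hσβ0]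
        linarith)
    rw [Finset.sum_singleton, hdiff] at h1
    have h2 : (1 / (((σ - β : ℝ) : ℂ))).re = 1 / (σ - β) := by
      rw [← Complex.ofReal_one, ← Complex.ofReal_div, Complex.ofReal_re]
    rw [h2] at h1
    have h3 : L / (7 * lam0) ≤ 1 / (σ - β) := by
      rw [div_le_div_iff₀ (by positivity) hσβ0]
      rw [le_div_iff₀ hL0] at hσβ
      linarith
    have h4 : (1 : ℝ) ≤ (analyticOrderNatAt (DirichletCharacter.LFunction e.χ) ρ : ℝ) := by
      have : 1 ≤ analyticOrderNatAt (DirichletCharacter.LFunction e.χ) ρ := hmz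
      exact_mod_cast this
    have h5 : 0 < 1 / (σ - β) := by positivity
    have h6 : 1 / (σ - β) ≤ (analyticOrderNatAt (DirichletCharacter.LFunction e.χ) ρ : ℝ) *
        (1 / (σ - β)) := le_mul_of_one_le_left h5.le h4
    linarith [hη A₁ hA₁']
  have h341 := Pool.Agent.Helper22.GK.tfo_one e.r e.χ σ γ hσ1
  have hnum : L / (6 * lam0) = (L / lam0) * (1 / 6) := by field_simp
  have hnum2 : L / (200 * lam0) = (L / lam0) * (1 / 200) := by field_simp
  have hnum3 : L / (7 * lam0) = (L / lam0) * (1 / 7) := by field_simp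
  have hLl : 0 < L / lam0 := by positivity
  have hcast : (σ : ℂ) + 2 * (γ : ℂ) * Complex.I = (σ : ℂ) + ((2 * γ : ℝ) : ℂ) * Complex.I := by
    push_cast; ring
  have h2γ : |2 * γ| ≤ X ^ 2 := by
    rw [abs_mul, abs_two]
    nlinarith [abs_nonneg γ]
  -- the square is trivial
  have hsq : e.χ ^ 2 = 1 := by
    by_contra hne
    have h1 := hR (X ^ 2) e.r (e.χ ^ 2) σ (2 * γ) ∅ (le_trans hXX₁ hY1) (hrY c₁ hm1) hσY hσc₁
      h2γ (fun he => absurd he hne) (by intro ρ' hρ'; exact absurd hρ' (Finset.notMem_empty _))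
    rw [Finset.sum_empty, sub_zero] at h1
    rw [hcast] at h341
    have h2 := hη A₁ hA₁'
    rw [hnum2] at h2 hB1 hB2
    rw [hnum] at hB1
    rw [hnum3] at hB2
    linarith
  have hsmall : |γ| ≤ 60 * lam0 / L := by
    by_contra hcon
    rw [not_le] at hcon
    have h1 := hP (X ^ 2) e.r σ (2 * γ) (le_trans hXX₂ hY1) (hrY c₂ hm2) hσY hσc₂ h2γ
    rw [hcast, hsq] at h341
    have hγ0 : γ ≠ 0 := by
      intro h0
      rw [h0, abs_zero] at hcon
      have : 0 < 60 * lam0 / L := by positivity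
      linarith
    have h3 : (1 / (((σ : ℂ) + ((2 * γ : ℝ) : ℂ) * Complex.I) - 1)).re ≤ (L / lam0) * (1 / 2400) := by
      have e1 : ((σ : ℂ) + ((2 * γ : ℝ) : ℂ) * Complex.I) - 1 =
          ((6 * lam0 / L : ℝ) : ℂ) + ((2 * γ : ℝ) : ℂ) * Complex.I := by
        rw [hσ]; push_cast; ring
      rw [e1]
      refine le_trans (re_inv_ZF1 _ _ hb0 (by simpa using hγ0)) ?_
      have h5 : (60 * lam0 / L) ^ 2 ≤ γ ^ 2 := by
        rw [← sq_abs γ]
        exact pow_le_pow_left₀ (by positivity) hcon.le 2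
      have h6 : 0 < (60 * lam0 / L) ^ 2 := by positivity
      calc (6 * lam0 / L) / (2 * γ) ^ 2 ≤ (6 * lam0 / L) / (4 * (60 * lam0 / L) ^ 2) := by
            apply div_le_div_of_nonneg_left hb0.le (by positivity)
            nlinarith
        _ = (L / lam0) * (1 / 2400) := by
            field_simp
            ring
    have h2 := hη A₂ hA₂'
    rw [hnum2] at h2 hB1 hB2
    rw [hnum] at hB1
    rw [hnum3] at hB2
    linarith
  refine ⟨⟨hsq, ?_⟩, hsmall⟩
  intro he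
  have h1 := htriv he
  have h2 : 60 * lam0 / L ≤ 20 := by
    rw [div_le_iff₀ hL0]
    linarith
  linarith

end Pool.Agent.Helper85.MV
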